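import Pool.Agent.Q233.SW.Mod

set_option autoImplicit false

/-!
# Degree and canonical class of smooth subvarieties of codimension two

Let `X ⊂ P^N` be smooth of codimension two, `N ≥ 7`, of degree `d` and with `ω_X = O(c - N - 1)`.  The
integrality of the Hilbert polynomial implies that `a² - c a + d`, for a suitable integer `a`, is
divisible by a number of size `exp ((3/2 + o(1)) N)`, and that `X` has the invariants of a complete
intersection unless `c² - 4 d` is large.
-/

open Finset MvPolynomial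

namespace Pool.Agent.Results.MP_014caa_ag.CodimTwoDegrees

/-- The polynomial ring `ℂ[x_0, …, x_N]`. -/
abbrev Poly (N : ℕ) : Type := MvPolynomial (Fin (N + 1)) ℂ

/-- The gradient of the polynomial `F` at the point `x`. -/
noncomputable def grad {N : ℕ} (F : Poly N) (x : Fin (N + 1) → ℂ) : Fin (N + 1) → ℂ :=
  fun i => eval x (pderiv i F)

/-- The common zeros in `ℂ^(N + 1)` of the polynomials in `I`: the affine cone over the projective
variety `X` when `I` is the homogeneous ideal of `X`. -/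
def cone {N : ℕ} (I : Ideal (Poly N)) : Set (Fin (N + 1) → ℂ) := {x | ∀ F ∈ I, eval x F = 0}

/-- The conormal space of `X` at `x`: the span of the gradients at `x` of the elements of `I`. -/
noncomputable def conormal {N : ℕ} (I : Ideal (Poly N)) (x : Fin (N + 1) → ℂ) :
    Submodule ℂ (Fin (N + 1) → ℂ) :=
  Submodule.span ℂ {ξ | ∃ F ∈ I, ξ = grad F x}

/-- `I` is the homogeneous ideal of a nonsingular irreducible closed subvariety `X` of
codimension `r` of the complex projective space `ℙ^N`: it is a homogeneous prime ideal, `X` is not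
empty, and at every point of `X` the gradients of the elements of `I` span a space of dimension `r`
(Jacobian criterion). -/
structure IsSmoothVariety (N r : ℕ) (I : Ideal (Poly N)) : Prop where
  prime : I.IsPrime
  homogeneous : ∀ F ∈ I, ∀ d, homogeneousComponent d F ∈ I
  nonempty : ∃ x ∈ cone I, x ≠ 0
  smooth : ∀ x ∈ cone I, x ≠ 0 → Module.finrank ℂ (conormal I x) = r

/-- The Hilbert function of `I`: the dimension of the image of the forms of degree `t` in
`ℂ[x_0, …, x_N] ⧸ I`. -/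
noncomputable def hilb {N : ℕ} (I : Ideal (Poly N)) (t : ℕ) : ℕ :=
  Module.finrank ℂ
    ((homogeneousSubmodule (Fin (N + 1)) ℂ t).map (Ideal.Quotient.mkₐ ℂ I).toLinearMap)

/-- `X` has the degree `d` and the canonical sheaf `O(c - N - 1)`, expressed by the Hilbert
polynomial: with the complex numbers `x, y` such that `x + y = c` and `x y = d`,
`dim (S/I)_t = C(t + N, N) - C(t - x + N, N) - C(t - y + N, N) + C(t - c + N, N)` for all large `t`.
(This is the Riemann-Roch theorem for the rank two bundle `E` of the sequence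
`0 → O → E → I_X(c) → 0` of the correspondence of Serre.) -/
def HasInvariants {N : ℕ} (I : Ideal (Poly N)) (c d : ℤ) : Prop :=
  ∃ x y : ℂ, x + y = c ∧ x * y = d ∧ ∃ t₀ : ℕ, ∀ t : ℕ, t₀ ≤ t →
    (N.factorial : ℂ) * (hilb I t : ℂ) =
      ∏ i ∈ range N, ((t : ℂ) + (i + 1)) - ∏ i ∈ range N, ((t : ℂ) - x + (i + 1)) -
        ∏ i ∈ range N, ((t : ℂ) - y + (i + 1)) + ∏ i ∈ range N, ((t : ℂ) - c + (i + 1))

lemma prod_bin (z : ℂ) (n : ℕ) : ∏ i ∈ range n, (z + (i + 1)) =
    (n.factorial : ℂ) * Pool.Agent.Q233.SW.bin (z + n) n := by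
  unfold Pool.Agent.Q233.SW.bin
  rw [mul_div_cancel₀ _ (Pool.Agent.Q233.SW.fact_ne n), ← Finset.prod_range_reflect]
  refine prod_congr rfl fun j hj => ?_
  have hj' := mem_range.1 hj
  have e : ((n - 1 - j : ℕ) : ℂ) = (n : ℂ) - 1 - j := by
    rw [Nat.cast_sub (by omega), Nat.cast_sub (by omega)]; simp
  rw [e]
  ring

/-- Let `X ⊂ ℙ^N`, `N ≥ 7`, be a nonsingular subvariety of codimension two, of degree `d` and with
canonical sheaf `O(c - N - 1)`.

(1) There is an integer `a` such that `lcm(1, ..., ⌊N/2⌋)² ∏_{N/2 < p < N} p` (product over primes)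
divides `2 (a² - c a + d)`.

(2) If `c² - 4 d ≤ (N - 3)²` and `5 (4 d - c²) + 4 ≤ (N - 1)²`, then `c = p + q` and `d = p q` for
integers `p, q`: the invariants are those of a complete intersection of two hypersurfaces. -/
theorem result {N : ℕ} (hN : 7 ≤ N) (I : Ideal (Poly N)) (_hI : IsSmoothVariety N 2 I)
    (c d : ℤ) (hcd : HasInvariants I c d) :
    (∃ a : ℤ, (((Finset.Icc 1 (N / 2)).lcm id : ℕ) : ℤ) ^ 2 *
        ∏ p ∈ (Finset.Ioo (N / 2) N).filter Nat.Prime, (p : ℤ) ∣ 2 * (a ^ 2 - c * a + d)) ∧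
    (c ^ 2 - 4 * d ≤ ((N : ℤ) - 3) ^ 2 → 5 * (4 * d - c ^ 2) + 4 ≤ ((N : ℤ) - 1) ^ 2 →
      ∃ p q : ℤ, c = p + q ∧ d = p * q) := by
  obtain ⟨x, y, hs, hp, t₀, ht⟩ := hcd
  have hs' : -x + -y = ((-c : ℤ) : ℂ) := by push_cast; rw [← hs]; ring
  have hp' : -x * -y = ((d : ℤ) : ℂ) := by rw [← hp]; ring
  have hint : ∀ k ≤ N, ∀ s : ℤ,
      Pool.Agent.Q233.SW.IsInt (Pool.Agent.Q233.SW.F (-x) (-y) k s) := by
    refine Pool.Agent.Q233.SW.int_all (-x) (-y) N (N + t₀ + |c|) fun s hs => ?_
    have hc1 := abs_nonneg c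
    have hc2 := le_abs_self c
    obtain ⟨t, rfl⟩ : ∃ t : ℕ, s = t + N := ⟨(s - N).toNat, by omega⟩
    have h1 := ht t (by omega)
    rw [prod_bin, prod_bin, prod_bin, prod_bin] at h1
    obtain ⟨m, hm⟩ : ∃ m : ℕ, (m : ℤ) = t - c + N := ⟨(t - c + N : ℤ).toNat, by omega⟩
    have hm' : (m : ℂ) = (t : ℂ) - c + N := by exact_mod_cast congrArg (Int.cast : ℤ → ℂ) hm
    have e1 : (t : ℂ) + N = ((t + N : ℕ) : ℂ) := by push_cast; rfl
    rw [← hm', e1, Pool.Agent.Q233.SW.bin_natCast, Pool.Agent.Q233.SW.bin_natCast] at h1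
    refine ⟨(t + N).choose N + m.choose N - hilb I t, ?_⟩
    have hf := Pool.Agent.Q233.SW.fact_ne N
    have h2 : (hilb I t : ℂ) = ((t + N).choose N : ℂ) -
        Pool.Agent.Q233.SW.bin ((t : ℂ) - x + N) N - Pool.Agent.Q233.SW.bin ((t : ℂ) - y + N) N +
        (m.choose N : ℂ) := by
      apply mul_left_cancel₀ hf
      rw [h1]; ring
    unfold Pool.Agent.Q233.SW.F
    push_cast
    rw [h2]
    have e2 : -x + ((t : ℂ) + N) = (t : ℂ) - x + N := by ring
    have e3 : -y + ((t : ℂ) + N) = (t : ℂ) - y + N := by ring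
    rw [e2, e3]
    ring
  refine ⟨?_, ?_⟩
  · obtain ⟨a, ha⟩ := Pool.Agent.Q233.SW.modulus hs' hp' hint
    refine ⟨a, ?_⟩
    have e : 2 * (a ^ 2 - c * a + d) = 2 * (a ^ 2 + -c * a + d) := by ring
    rw [e]; exact ha
  · intro h1 h2
    have h3 := Pool.Agent.Q233.SW.arch hs' hp' (by omega) hint
    have e0 : (-c) ^ 2 - 4 * d = c ^ 2 - 4 * d := by ring
    rw [e0] at h3
    rcases h3 with h3 | h3 | h3
    · obtain ⟨r, hr⟩ := h3
      have h4 : (2 : ℤ) ∣ c - r := by
        have h5 : (2 : ℤ) ∣ (c - r) * (c + r) := ⟨2 * d, by linear_combination hr⟩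
        rcases Int.prime_two.dvd_or_dvd h5 with h6 | h6
        · exact h6
        · have : c - r = (c + r) - 2 * r := by ring
          rw [this]; exact dvd_sub h6 (dvd_mul_right _ _)
      obtain ⟨q, hq⟩ := h4
      have h7 : c = r + 2 * q := by linear_combination hq
      refine ⟨r + q, q, by rw [h7]; ring, ?_⟩
      have h8 : 4 * d = 4 * ((r + q) * q) := by
        rw [h7] at hr
        linear_combination -hr
      omega
    · omega
    · have : 5 * (4 * d - c ^ 2) + 4 = -5 * (c ^ 2 - 4 * d) + 4 := by ring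
      omega

end Pool.Agent.Results.MP_014caa_ag.CodimTwoDegrees
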